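import Pool.Agent.helper11.TX.Spec2

/-! Row tx:NT: sums of `1 / l ^ 2` over the primes. -/

set_option autoImplicit false

namespace Pool.Agent.helper11.TX

open Finset

theorem NT_ind (a : ℕ) (ha : a ≤ 28) : ∀ N : ℕ, 28 ≤ N →
    (∑ l ∈ Icc a N with l.Prime, 1 / (l : ℝ) ^ 2 : ℝ)
      ≤ (∑ l ∈ Icc a 28 with l.Prime, 1 / (l : ℝ) ^ 2 : ℝ) + 1 / 28 - 1 / (N : ℝ) := by
  intro N hN
  induction N, hN using Nat.le_induction with
  | base => norm_num
  | succ N hN ih =>
    have hN0 : (0 : ℝ) < N := by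
      have : 0 < N := by omega
      exact_mod_cast this
    have h1 : (∑ l ∈ Icc a (N + 1) with l.Prime, 1 / (l : ℝ) ^ 2 : ℝ)
        ≤ (∑ l ∈ Icc a N with l.Prime, 1 / (l : ℝ) ^ 2 : ℝ) + 1 / ((N : ℝ) + 1) ^ 2 := by
      have e : Icc a (N + 1) = insert (N + 1) (Icc a N) := by
        ext x
        simp only [mem_Icc, mem_insert]
        omega
      rw [e, Finset.filter_insert]
      split_ifs with hp
      · rw [Finset.sum_insert (by simp)]
        push_cast
        linarith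
      · have : (0 : ℝ) ≤ 1 / ((N : ℝ) + 1) ^ 2 := by positivity
        linarith
    have h2 : 1 / ((N : ℝ) + 1) ^ 2 ≤ 1 / N - 1 / ((N : ℝ) + 1) := by
      rw [div_sub_div _ _ hN0.ne' (by positivity), div_le_div_iff₀ (by positivity) (by positivity)]
      nlinarith
    push_cast
    linarith

theorem NT_all (a : ℕ) (ha : a ≤ 28) (N : ℕ) :
    (∑ l ∈ Icc a N with l.Prime, 1 / (l : ℝ) ^ 2 : ℝ)
      ≤ (∑ l ∈ Icc a 28 with l.Prime, 1 / (l : ℝ) ^ 2 : ℝ) + 1 / 28 := by
  rcases le_total 28 N with h | h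
  · have h1 := NT_ind a ha N h
    have h2 : (0 : ℝ) ≤ 1 / (N : ℝ) := by positivity
    linarith
  · have h1 : ∑ l ∈ Icc a N with l.Prime, 1 / (l : ℝ) ^ 2
        ≤ ∑ l ∈ Icc a 28 with l.Prime, 1 / (l : ℝ) ^ 2 := by
      apply Finset.sum_le_sum_of_subset_of_nonneg
      · exact Finset.filter_subset_filter _ (Finset.Icc_subset_Icc_right h)
      · intro i _ _
        positivity
    have h2 : (0 : ℝ) ≤ 1 / 28 := by positivity
    linarith

theorem NT : NT_stmt := by
  intro N
  have e5 : (Icc 5 28).filter Nat.Prime = {5, 7, 11, 13, 17, 19, 23} := by decide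
  have e7 : (Icc 7 28).filter Nat.Prime = {7, 11, 13, 17, 19, 23} := by decide
  have h5 := NT_all 5 (by norm_num) N
  have h7 := NT_all 7 (by norm_num) N
  rw [e5] at h5
  rw [e7] at h7
  constructor
  · refine h5.trans ?_
    norm_num
  · refine h7.trans ?_
    norm_num

end Pool.Agent.helper11.TX
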